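import Pool.Agent.Helper18.EW.Goals

set_option autoImplicit false

namespace Pool.Agent.Helper49.EW

open Finset
open Pool.Agent.Helper18.EW
open Pool.Agent.Helper43.Hw (T na va lz Play aa ac sc oo sk U Dd Sd Pn nx bb np)

theorem goalE14 (hE7 : GoalE7) (hG8 : GoalG8) : GoalE14 := by
  intro μ R N K b l Lg q β v τ s E ℓ κ x e P y hμ hPh hGrp hb hj hsy hyR hv
  have hK : K = b * (q + 1) := hPh.par.hK
  have hl1 := hPh.par.l1
  have hL1 := hPh.par.L1
  have hb1 := hPh.par.b1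
  have hb40 : 2 ^ 40 ≤ b := le_trans (by nlinarith) hb1
  have hvb := hPh.vb
  have hvc := hPh.vc
  have hJs := hPh.Js
  have hbl : 2 ^ 40 * l ≤ b * l := Nat.mul_le_mul_right l hb40
  have h2l : 2 * l + 2 ≤ 2 ^ q * v := by omega
  have hRy : R ≤ y + 1 + μ := by omega
  subst hK
  rcases Nat.lt_or_ge (4 * (2 ^ q * v)) (R - 1 - y) with hw | hw
  · have h7 := hE7 μ R N (b * (q + 1)) b l Lg q β v τ s ℓ κ x y hPh hyR hRy hw
    generalize Dd μ R κ x y = Dv at h7 ⊢
    generalize gD μ R (b * (q + 1)) τ s e P y = Gv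
    generalize R - 1 - y = w at h7 hw hv ⊢
    have h1 : b * l ≤ 160 * w := by omega
    calc w ^ 2 * (b * l + w) ≤ w ^ 2 * (160 * w + w) :=
          Nat.mul_le_mul_left _ (by omega)
      _ = 161 * w ^ 3 := by ring
      _ ≤ 161 * (8 * l * Dv) := Nat.mul_le_mul_left _ h7
      _ = (1288 * l) * Dv := by ring
      _ ≤ (4096 * l) * (Dv + Gv) := Nat.mul_le_mul (by omega) (by omega)
  · have h8 := hG8 μ R b q τ s E v l y e P hμ hPh.v1 (by omega) hGrp hPh.t1 hPh.t2 h2l hb hj hsy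
      hyR hv hw
    generalize Dd μ R κ x y = Dv
    generalize gD μ R (b * (q + 1)) τ s e P y = Gv at h8 ⊢
    generalize R - 1 - y = w at h8 hw hv ⊢
    have h1 : w ≤ b * l := by omega
    calc w ^ 2 * (b * l + w) ≤ w ^ 2 * (b * l + b * l) :=
          Nat.mul_le_mul_left _ (by omega)
      _ = (2 * l) * (b * w ^ 2) := by ring
      _ ≤ (2 * l) * (128 * Gv) := Nat.mul_le_mul_left _ h8
      _ = (256 * l) * Gv := by ring
      _ ≤ (4096 * l) * (Dv + Gv) := Nat.mul_le_mul (by omega) (by omega)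

end Pool.Agent.Helper49.EW
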